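import Pool.Agent.Helper133.Brouwer

/-!
# Nagata dimension: definition, coloured covers, the lattice `ℤ^n`
-/

namespace Pool.Agent.R228.ND

open MeasureTheory Metric

/-- `dim_N X ≤ d`: there is a constant `c > 0` such that for every `s > 0` the set `X` has a cover
by sets of diameter at most `c s` such that every subset of `X` of diameter at most `s` meets at
most `d + 1` members of the cover. -/
def NagataLE {M : Type*} [PseudoMetricSpace M] (X : Set M) (d : ℕ) : Prop :=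
  ∃ c : ℝ, 0 < c ∧ ∀ s : ℝ, 0 < s → ∃ 𝒰 : Set (Set M),
    (∀ U ∈ 𝒰, U ⊆ X ∧ ∀ x ∈ U, ∀ y ∈ U, dist x y ≤ c * s) ∧ X ⊆ ⋃₀ 𝒰 ∧
    ∀ B ⊆ X, (∀ x ∈ B, ∀ y ∈ B, dist x y ≤ s) →
      {U ∈ 𝒰 | (U ∩ B).Nonempty}.encard ≤ d + 1

/-- The Nagata dimension of `X` (the least `d` with `dim_N X ≤ d`, and `⊤` if there is none). -/
noncomputable def nagataDim {M : Type*} [PseudoMetricSpace M] (X : Set M) : ℕ∞ :=
  ⨅ (d : ℕ) (_ : NagataLE X d), (d : ℕ∞)

theorem NagataLE.mono {M : Type*} [PseudoMetricSpace M] {X : Set M} {d e : ℕ}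
    (h : NagataLE X d) (hde : d ≤ e) : NagataLE X e := by
  obtain ⟨c, hc, h⟩ := h
  refine ⟨c, hc, fun s hs => ?_⟩
  obtain ⟨𝒰, h1, h2, h3⟩ := h s hs
  refine ⟨𝒰, h1, h2, fun B hB hd => (h3 B hB hd).trans ?_⟩
  have : (d : ℕ∞) ≤ e := by exact_mod_cast hde
  gcongr

theorem nagataDim_le {M : Type*} [PseudoMetricSpace M] {X : Set M} {d : ℕ}
    (h : NagataLE X d) : nagataDim X ≤ d := iInf₂_le d h

theorem le_nagataDim {M : Type*} [PseudoMetricSpace M] {X : Set M} {d : ℕ}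
    (h : ¬ NagataLE X d) : ((d + 1 : ℕ) : ℕ∞) ≤ nagataDim X := by
  refine le_iInf₂ (fun e he => ?_)
  have : d < e := by
    by_contra hc
    exact h (he.mono (not_lt.1 hc))
  exact_mod_cast this

/-- covers given by coloured labels -/
theorem nagata_of_colors {M : Type*} [PseudoMetricSpace M] {X : Set M} {d : ℕ} {c : ℝ}
    (hc : 0 < c) (L : Type*)
    (h : ∀ s : ℝ, 0 < s → ∃ (G : Fin (d + 1) → Set M) (l : Fin (d + 1) → M → L),
      (∀ x ∈ X, ∃ i, x ∈ G i) ∧
      (∀ i, ∀ x ∈ X, ∀ y ∈ X, x ∈ G i → y ∈ G i → l i x = l i y → dist x y ≤ c * s) ∧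
      (∀ i, ∀ x ∈ X, ∀ y ∈ X, x ∈ G i → y ∈ G i → l i x ≠ l i y → s < dist x y)) :
    NagataLE X d := by
  refine ⟨c, hc, fun s hs => ?_⟩
  obtain ⟨G, l, h1, h2, h3⟩ := h s hs
  refine ⟨{U | ∃ i, ∃ x ∈ X, x ∈ G i ∧ U = {y | y ∈ X ∧ y ∈ G i ∧ l i y = l i x}}, ?_, ?_, ?_⟩
  · rintro U ⟨i, x, hx, hxG, rfl⟩
    refine ⟨fun y hy => hy.1, fun y hy z hz => ?_⟩
    exact h2 i y hy.1 z hz.1 hy.2.1 hz.2.1 (hy.2.2.trans hz.2.2.symm)
  · intro x hx
    obtain ⟨i, hi⟩ := h1 x hx
    exact ⟨_, ⟨i, x, hx, hi, rfl⟩, hx, hi, rfl⟩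
  · intro B hB hd
    let m : Fin (d + 1) → Set M :=
      fun i => {y | y ∈ X ∧ y ∈ G i ∧ ∃ b ∈ B, b ∈ G i ∧ l i y = l i b}
    have hsub : {U ∈ {U | ∃ i, ∃ x ∈ X, x ∈ G i ∧ U = {y | y ∈ X ∧ y ∈ G i ∧ l i y = l i x}} |
        (U ∩ B).Nonempty} ⊆ m '' Set.univ := by
      rintro U ⟨⟨i, x, hx, hxG, rfl⟩, b, ⟨hbX, hbG, hbl⟩, hbB⟩
      refine ⟨i, trivial, ?_⟩
      ext y
      constructor
      · rintro ⟨hy1, hy2, b', hb', hb'G, hy3⟩
        refine ⟨hy1, hy2, ?_⟩
        have : l i b' = l i b := by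
          by_contra hne
          have := h3 i b' (hB hb') b hbX hb'G hbG hne
          exact absurd (hd b' hb' b hbB) (not_le.2 this)
        rw [hy3, this, hbl]
      · rintro ⟨hy1, hy2, hy3⟩
        exact ⟨hy1, hy2, b, hbB, hbG, hy3.trans hbl.symm⟩
    refine (Set.encard_le_encard hsub).trans ((Set.encard_image_le _ _).trans ?_)
    rw [Set.encard_univ]
    simp

/-! ### bricks -/

theorem int_diff {M i a b : ℤ} (hb : b % M ≠ i) (hi : 0 ≤ i) (hiM : i < M)
    (h : (a - i) / M < (b - i) / M) : a + 2 ≤ b := by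
  have hM : 0 < M := by omega
  have e1 := Int.emod_add_mul_ediv (a - i) M
  have e2 := Int.emod_add_mul_ediv (b - i) M
  have r1 := Int.emod_lt_of_pos (a - i) hM
  have r2 : 0 ≤ (b - i) % M := Int.emod_nonneg (b - i) hM.ne'
  have r3 : (b - i) % M ≠ 0 := by
    intro hc
    apply hb
    have h1 : M ∣ b - i := Int.dvd_of_emod_eq_zero hc
    obtain ⟨k, hk⟩ := h1
    have : b = i + M * k := by omega
    rw [this, Int.add_mul_emod_self_left, Int.emod_eq_of_lt hi hiM]
  have h1 : M * ((a - i) / M) + M ≤ M * ((b - i) / M) := by nlinarith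
  omega


/-- cell number -/
noncomputable def cell (s x : ℝ) : ℤ := ⌊x / (2 * s)⌋

/-- label of colour `i` -/
noncomputable def lab (s : ℝ) (m : ℕ) (i : Fin (m + 1)) (x : ℝ) : ℤ :=
  (cell s x - (i : ℕ)) / ((m : ℤ) + 1)

/-- `x` does not lie in a gap of colour `i` -/
def good (s : ℝ) (m : ℕ) (i : Fin (m + 1)) (x : ℝ) : Prop :=
  cell s x % ((m : ℤ) + 1) ≠ (i : ℕ)

theorem lab_diff {s : ℝ} (hs : 0 < s) {m : ℕ} {i : Fin (m + 1)} {x y : ℝ}
    (hx : good s m i x) (hy : good s m i y) (h : lab s m i x ≠ lab s m i y) : s < |x - y| := by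
  have key : ∀ x y : ℝ, good s m i y → lab s m i x < lab s m i y → s < y - x := by
    intro x y hy h
    have h1 := int_diff (M := (m : ℤ) + 1) (i := (i : ℕ)) hy (by omega)
      (by have := i.2; omega) h
    have h2 : (cell s x : ℝ) + 2 ≤ cell s y := by exact_mod_cast h1
    have h3 : x / (2 * s) < cell s x + 1 := Int.lt_floor_add_one _
    have h4 : (cell s y : ℝ) ≤ y / (2 * s) := Int.floor_le _
    have h5 : 0 < 2 * s := by positivity
    have h6 : x / (2 * s) + 1 < y / (2 * s) := by linarith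
    have h7 : (x / (2 * s) + 1) * (2 * s) < y / (2 * s) * (2 * s) :=
      mul_lt_mul_of_pos_right h6 h5
    rw [add_mul, div_mul_cancel₀ _ h5.ne', div_mul_cancel₀ _ h5.ne'] at h7
    linarith
  rcases lt_or_gt_of_ne h with h | h
  · have := key x y hy h
    rw [abs_sub_comm]
    exact this.trans_le (le_abs_self _)
  · have := key y x hx h
    exact this.trans_le (le_abs_self _)

theorem lab_same {s : ℝ} (hs : 0 < s) {m : ℕ} {i : Fin (m + 1)} {x y : ℝ}
    (h : lab s m i x = lab s m i y) : |x - y| ≤ 2 * s * (m + 1) := by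
  have key : ∀ x y : ℝ, lab s m i x = lab s m i y → y - x ≤ 2 * s * (m + 1) := by
    intro x y h
    unfold lab at h
    have hM : (0 : ℤ) < (m : ℤ) + 1 := by omega
    have e1 := Int.emod_add_mul_ediv (cell s x - (i : ℕ)) ((m : ℤ) + 1)
    have e2 := Int.emod_add_mul_ediv (cell s y - (i : ℕ)) ((m : ℤ) + 1)
    have r1 := Int.emod_lt_of_pos (cell s y - (i : ℕ)) hM
    have r2 := Int.emod_nonneg (cell s x - (i : ℕ)) hM.ne'
    rw [h] at e1
    have h1 : cell s y ≤ cell s x + m := by omega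
    have h2 : (cell s y : ℝ) ≤ cell s x + m := by exact_mod_cast h1
    have h3 : (cell s x : ℝ) ≤ x / (2 * s) := Int.floor_le _
    have h4 : y / (2 * s) < cell s y + 1 := Int.lt_floor_add_one _
    have h5 : 0 < 2 * s := by positivity
    have h6 : y / (2 * s) ≤ x / (2 * s) + (m + 1) := by linarith
    have h7 : y / (2 * s) * (2 * s) ≤ (x / (2 * s) + (m + 1)) * (2 * s) :=
      mul_le_mul_of_nonneg_right h6 h5.le
    rw [add_mul, div_mul_cancel₀ _ h5.ne', div_mul_cancel₀ _ h5.ne'] at h7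
    linarith
  rw [abs_le]
  constructor
  · have := key x y h
    linarith
  · have := key y x h.symm
    linarith

theorem exists_good (s : ℝ) {m : ℕ} (v : Fin m → ℝ) : ∃ i : Fin (m + 1), ∀ j, good s m i (v j) := by
  by_contra hc
  push Not at hc
  choose g hg using hc
  have hinj : Function.Injective g := by
    intro i i' h
    have h1 := hg i
    have h2 := hg i'
    unfold good at h1 h2
    rw [not_not] at h1 h2
    rw [h] at h1
    have : ((i : ℕ) : ℤ) = ((i' : ℕ) : ℤ) := h1.symm.trans h2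
    exact Fin.ext (by exact_mod_cast this)
  have := Fintype.card_le_of_injective g hinj
  simp at this

/-! ### Euclidean space -/

theorem norm_le_of_coord {n : ℕ} {x : EuclideanSpace ℝ (Fin n)} {b : ℝ} (hb : 0 ≤ b)
    (h : ∀ i, |x i| ≤ b) : ‖x‖ ≤ n * b := by
  rw [EuclideanSpace.norm_eq]
  apply Real.sqrt_le_iff.2
  refine ⟨by positivity, ?_⟩
  have h1 : ∑ i, ‖x i‖ ^ 2 ≤ ∑ _i : Fin n, b ^ 2 := by
    apply Finset.sum_le_sum
    intro i _
    rw [Real.norm_eq_abs]
    exact pow_le_pow_left₀ (abs_nonneg _) (h i) 2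
  refine h1.trans ?_
  rw [Finset.sum_const, Finset.card_univ, Fintype.card_fin, nsmul_eq_mul, mul_pow]
  have h2 : (n : ℝ) ≤ (n : ℝ) ^ 2 := by
    have : n ≤ n ^ 2 := by nlinarith [Nat.zero_le n, Nat.le_self_pow (two_ne_zero) n]
    exact_mod_cast this
  exact mul_le_mul_of_nonneg_right h2 (by positivity)

theorem coord_le {n : ℕ} (x y : EuclideanSpace ℝ (Fin n)) (i : Fin n) :
    |x i - y i| ≤ dist x y := by
  rw [dist_eq_norm]
  have := PiLp.norm_apply_le (x - y) i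
  simpa [Real.norm_eq_abs] using this

theorem dist_le_of_coord {n : ℕ} {x y : EuclideanSpace ℝ (Fin n)} {b : ℝ} (hb : 0 ≤ b)
    (h : ∀ i, |x i - y i| ≤ b) : dist x y ≤ n * b := by
  rw [dist_eq_norm]
  exact norm_le_of_coord hb (fun i => by simpa using h i)

/-- every subset of `ℝ^n` has Nagata dimension at most `n` -/
theorem nagata_univ {n : ℕ} (X : Set (EuclideanSpace ℝ (Fin n))) : NagataLE X n := by
  apply nagata_of_colors (c := n * (2 * (n + 1)) + 1) (by positivity) (Fin n → ℤ)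
  intro s hs
  refine ⟨fun i => {x | ∀ j, good s n i (x j)}, fun i x j => lab s n i (x j), ?_, ?_, ?_⟩
  · intro x _
    exact exists_good s (fun j => x j)
  · intro i x _ y _ _ _ h
    have := dist_le_of_coord (x := x) (y := y) (b := 2 * s * (n + 1)) (by positivity)
      (fun j => lab_same hs (congrFun h j))
    refine this.trans ?_
    have : 0 ≤ s := hs.le
    nlinarith
  · intro i x _ y _ hx hy h
    obtain ⟨j, hj⟩ := Function.ne_iff.1 h
    exact (lab_diff hs (hx j) (hy j) hj).trans_le (coord_le x y j)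

end Pool.Agent.R228.ND
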