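import Pool.Agent.R228.ND.A

/-!
# The Nagata dimension of a set containing `ℤ^n` is at least `n`
-/

namespace Pool.Agent.R228.ND

open MeasureTheory Metric

/-- integer point -/
noncomputable def zp {n : ℕ} (z : Fin n → ℤ) : EuclideanSpace ℝ (Fin n) :=
  WithLp.toLp 2 (fun i => (z i : ℝ))

theorem exists_near {n : ℕ} (x : EuclideanSpace ℝ (Fin n)) : ∃ z : Fin n → ℤ,
    ‖x - zp z‖ ≤ n := by
  refine ⟨fun i => ⌊x i⌋, ?_⟩
  have := norm_le_of_coord (x := x - zp (fun i => ⌊x i⌋)) zero_le_one (fun i => by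
    have h1 := Int.floor_le (x i)
    have h2 := Int.lt_floor_add_one (x i)
    have h3 : (x - zp (fun i => ⌊x i⌋)) i = x i - ⌊x i⌋ := rfl
    rw [h3, abs_le]
    constructor <;> linarith)
  simpa using this

theorem affine_null {n : ℕ} (T : Finset (EuclideanSpace ℝ (Fin n))) (hT : T.card ≤ n) :
    volume (affineSpan ℝ (T : Set (EuclideanSpace ℝ (Fin n))) :
      Set (EuclideanSpace ℝ (Fin n))) = 0 := by
  apply Measure.addHaar_affineSubspace
  intro htop
  have hne : T.Nonempty := by
    rw [Finset.nonempty_iff_ne_empty]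
    rintro rfl
    simp at htop
  obtain ⟨k, hk⟩ : ∃ k, T.card = k + 1 := ⟨T.card - 1, by have := hne.card_pos; omega⟩
  have h1 := finrank_vectorSpan_image_finset_le ℝ (id : EuclideanSpace ℝ (Fin n) → _) T hk
  rw [Finset.image_id, ← direction_affineSpan, htop, AffineSubspace.direction_top, finrank_top,
    finrank_euclideanSpace_fin] at h1
  omega

theorem not_nagata {n d : ℕ} (hd : d < n) {X : Set (EuclideanSpace ℝ (Fin n))}
    (hX : ∀ z : Fin n → ℤ, zp z ∈ X) : ¬ NagataLE X d := by
  classical
  rintro ⟨c, hc, h⟩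
  set r : ℝ := n + 1 with hr
  have hr0 : 0 < r := by positivity
  obtain ⟨𝒰, hU1, hU2, hU3⟩ := h (2 * r) (by positivity)
  set C : ℝ := c * (2 * r) with hC
  have hC0 : 0 < C := by positivity
  have hmem : ∀ z : Fin n → ℤ, ∃ U ∈ 𝒰, zp z ∈ U := fun z => hU2 (hX z)
  choose U hU hzU using hmem
  let p : Set (EuclideanSpace ℝ (Fin n)) → EuclideanSpace ℝ (Fin n) :=
    fun V => if hV : V.Nonempty then hV.choose else 0
  have hp : ∀ V : Set (EuclideanSpace ℝ (Fin n)), V.Nonempty → p V ∈ V := by
    intro V hV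
    simp only [p, dif_pos hV]
    exact hV.choose_spec
  let P : (Fin n → ℤ) → EuclideanSpace ℝ (Fin n) := fun z => p (U z)
  have hP : ∀ z, ‖P z - zp z‖ ≤ C := by
    intro z
    rw [← dist_eq_norm]
    exact (hU1 (U z) (hU z)).2 _ (hp _ ⟨_, hzU z⟩) _ (hzU z)
  set R : ℝ := C + r + 3 with hR
  obtain ⟨N, hN⟩ := exists_nat_gt (R + r)
  set F : Finset (Fin n → ℤ) := Fintype.piFinset (fun _ => Finset.Icc (-(N : ℤ)) N) with hF
  have hFmem : ∀ z : Fin n → ℤ, ‖zp z‖ ≤ R + r → z ∈ F := by
    intro z hz
    rw [hF, Fintype.mem_piFinset]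
    intro i
    have h1 := PiLp.norm_apply_le (zp z) i
    have h2 : (zp z) i = (z i : ℝ) := rfl
    rw [h2, Real.norm_eq_abs] at h1
    have h3 : |(z i : ℝ)| ≤ N := by linarith
    rw [abs_le] at h3
    rw [Finset.mem_Icc]
    exact ⟨by exact_mod_cast h3.1, by exact_mod_cast h3.2⟩
  let w : (Fin n → ℤ) → EuclideanSpace ℝ (Fin n) → ℝ := fun z x => max 0 (r - ‖x - zp z‖)
  have hw0 : ∀ z x, 0 ≤ w z x := fun z x => le_max_left _ _
  have hwne : ∀ z x, w z x ≠ 0 → ‖x - zp z‖ < r := by
    intro z x hne
    by_contra hcon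
    apply hne
    exact max_eq_left (by linarith)
  let W : EuclideanSpace ℝ (Fin n) → ℝ := fun x => ∑ z ∈ F, w z x
  have hW : ∀ x, ‖x‖ ≤ R → 1 ≤ W x := by
    intro x hx
    obtain ⟨z, hz⟩ := exists_near x
    have hz2 : ‖zp z‖ ≤ R + r := by
      have h1 : zp z = x - (x - zp z) := by abel
      rw [h1]
      exact (norm_sub_le _ _).trans (by linarith)
    have h1 : 1 ≤ w z x := le_max_of_le_right (by linarith)
    exact h1.trans (Finset.single_le_sum (f := fun z => w z x) (fun z _ => hw0 z x)
      (hFmem z hz2))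
  let χ : EuclideanSpace ℝ (Fin n) → ℝ := fun x => max 0 (min 1 (R - ‖x‖))
  let f : EuclideanSpace ℝ (Fin n) → EuclideanSpace ℝ (Fin n) :=
    fun x => x + (χ x / max (W x) 1) • ∑ z ∈ F, w z x • (P z - x)
  have hWc : Continuous W := by
    apply continuous_finsetSum
    intro z _
    fun_prop
  have hfc : Continuous f := by
    have h1 : Continuous (fun x => χ x / max (W x) 1) := by
      refine Continuous.div (by fun_prop) (hWc.max continuous_const) ?_
      intro x
      have : 1 ≤ max (W x) 1 := le_max_right _ _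
      linarith
    have h2 : Continuous (fun x => ∑ z ∈ F, w z x • (P z - x)) := by
      apply continuous_finsetSum
      intro z _
      fun_prop
    exact continuous_id.add (h1.smul h2)
  have hfid : ∀ x, R ≤ ‖x‖ → f x = x := by
    intro x hx
    have : χ x = 0 := max_eq_left ((min_le_right _ _).trans (by linarith))
    simp only [f, this, zero_div, zero_smul, add_zero]
  have hfclose : ∀ x, ‖f x - x‖ ≤ C + r := by
    intro x
    simp only [f, add_sub_cancel_left]
    have h1 : ‖∑ z ∈ F, w z x • (P z - x)‖ ≤ W x * (C + r) := by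
      refine (norm_sum_le _ _).trans ?_
      rw [Finset.sum_mul]
      apply Finset.sum_le_sum
      intro z _
      rw [norm_smul, Real.norm_of_nonneg (hw0 z x)]
      by_cases hne : w z x = 0
      · rw [hne]; simp
      · apply mul_le_mul_of_nonneg_left _ (hw0 z x)
        have h2 := hwne z x hne
        have h3 : P z - x = (P z - zp z) - (x - zp z) := by abel
        rw [h3]
        exact (norm_sub_le _ _).trans (by linarith [hP z])
    have h2 : 0 ≤ χ x ∧ χ x ≤ 1 :=
      ⟨le_max_left _ _, max_le zero_le_one (min_le_left _ _)⟩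
    have h3 : 1 ≤ max (W x) 1 := le_max_right _ _
    have h4 : W x ≤ max (W x) 1 := le_max_left _ _
    rw [norm_smul, Real.norm_of_nonneg (by positivity)]
    have h5 : 0 ≤ C + r := by positivity
    calc χ x / max (W x) 1 * ‖∑ z ∈ F, w z x • (P z - x)‖
        ≤ 1 / max (W x) 1 * (max (W x) 1 * (C + r)) := by
          apply mul_le_mul
          · exact div_le_div_of_nonneg_right h2.2 (by linarith)
          · exact h1.trans (mul_le_mul_of_nonneg_right h4 h5)
          · exact norm_nonneg _
          · positivity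
      _ = C + r := by field_simp
  -- choice of a generic point
  set S : Finset (EuclideanSpace ℝ (Fin n)) := F.image P with hS
  set bad : Set (EuclideanSpace ℝ (Fin n)) :=
    ⋃ T ∈ (((S.powerset.filter (fun T => T.card ≤ n)) :
      Finset (Finset (EuclideanSpace ℝ (Fin n)))) : Set (Finset (EuclideanSpace ℝ (Fin n)))),
      (affineSpan ℝ (T : Set (EuclideanSpace ℝ (Fin n))) : Set (EuclideanSpace ℝ (Fin n)))
    with hbad
  have hbad0 : volume bad = 0 := by
    rw [hbad, measure_biUnion_null_iff (Finset.countable_toSet _)]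
    intro T hT
    exact affine_null T (Finset.mem_filter.1 (Finset.mem_coe.1 hT)).2
  obtain ⟨q, hq1, hq2⟩ : ∃ q ∈ ball (0 : EuclideanSpace ℝ (Fin n)) 1, q ∉ bad := by
    by_contra hcon
    push Not at hcon
    have h1 : volume (ball (0 : EuclideanSpace ℝ (Fin n)) 1) ≤ volume bad :=
      measure_mono hcon
    rw [hbad0] at h1
    have h2 := measure_ball_pos volume (0 : EuclideanSpace ℝ (Fin n)) one_pos
    exact absurd h2 (not_lt.2 h1)
  rw [mem_ball_zero_iff] at hq1
  obtain ⟨x0, hx0⟩ := Pool.Agent.Helper133.Brouwer.exists_zero n (fun x => f (x + q) - q)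
    ((hfc.comp (continuous_id.add continuous_const)).sub continuous_const) (R + 1)
    (by positivity) (by
      intro x hx
      have h1 : R ≤ ‖x + q‖ := by
        have h2 : x = (x + q) - q := by abel
        have h3 : ‖x‖ ≤ ‖x + q‖ + ‖q‖ := by
          conv_lhs => rw [h2]
          exact norm_sub_le _ _
        linarith
      rw [hfid _ h1]
      abel)
  set x := x0 + q with hx
  have hfx : f x = q := sub_eq_zero.1 hx0
  have hxn : ‖x‖ ≤ R - 1 := by
    have h1 := hfclose x
    rw [hfx] at h1
    have h2 : x = q - (q - x) := by abel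
    have h3 : ‖x‖ ≤ ‖q‖ + ‖q - x‖ := by
      conv_lhs => rw [h2]
      exact norm_sub_le _ _
    rw [hR]
    linarith
  have hW1 := hW x (by linarith)
  have hχ1 : χ x = 1 := by
    simp only [χ]
    rw [min_eq_left (by linarith), max_eq_right zero_le_one]
  have hcm : F.centerMass (fun z => w z x) P = q := by
    rw [← hfx]
    simp only [f, hχ1, max_eq_left hW1]
    have h1 : ∑ z ∈ F, w z x • (P z - x) = ∑ z ∈ F, w z x • P z - W x • x := by
      simp only [smul_sub, Finset.sum_sub_distrib, W, Finset.sum_smul]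
    rw [h1, smul_sub, smul_smul]
    have h2 : 1 / W x * W x = 1 := by
      rw [one_div, inv_mul_cancel₀ (by linarith)]
    rw [h2, one_smul, add_sub_cancel, one_div]
    rfl
  set F' := F.filter (fun z => w z x ≠ 0) with hF'
  have hcm' : F'.centerMass (fun z => w z x) P = q := by
    rw [← hcm, hF']
    exact Finset.centerMass_filter_ne_zero (t := F) (w := fun z => w z x) P
  set T : Finset (EuclideanSpace ℝ (Fin n)) := F'.image P with hT
  -- `q` lies in the affine span of `T`
  have hqT : q ∈ affineSpan ℝ (T : Set (EuclideanSpace ℝ (Fin n))) := by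
    apply convexHull_subset_affineSpan
    rw [← hcm']
    apply Finset.centerMass_mem_convexHull
    · intro z _
      exact hw0 z x
    · have : ∑ z ∈ F', w z x = W x := by
        rw [hF']
        exact Finset.sum_filter_ne_zero F
      simp only [this]
      linarith
    · intro z hz
      rw [hT, Finset.coe_image]
      exact ⟨z, hz, rfl⟩
  -- and `T` has at most `n` elements
  set B : Set (EuclideanSpace ℝ (Fin n)) := zp '' (F' : Set (Fin n → ℤ)) with hB
  have hBcard := hU3 B (by rintro _ ⟨z, _, rfl⟩; exact hX z) (by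
    rintro _ ⟨z, hz, rfl⟩ _ ⟨z', hz', rfl⟩
    have h1 := hwne z x (Finset.mem_filter.1 (Finset.mem_coe.1 hz)).2
    have h2 := hwne z' x (Finset.mem_filter.1 (Finset.mem_coe.1 hz')).2
    rw [dist_eq_norm]
    have h3 : zp z - zp z' = (x - zp z') - (x - zp z) := by abel
    rw [h3]
    exact (norm_sub_le _ _).trans (by linarith))
  have hTcard : T.card ≤ n := by
    have h1 : (T : Set (EuclideanSpace ℝ (Fin n))) ⊆ p '' {V ∈ 𝒰 | (V ∩ B).Nonempty} := by
      intro y hy
      rw [hT, Finset.coe_image] at hy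
      obtain ⟨z, hz, rfl⟩ := hy
      exact ⟨U z, ⟨hU z, zp z, hzU z, z, hz, rfl⟩, rfl⟩
    have h2 := (Set.encard_le_encard h1).trans ((Set.encard_image_le _ _).trans hBcard)
    rw [Set.encard_coe_eq_coe_finsetCard] at h2
    have h3 : T.card ≤ d + 1 := by exact_mod_cast h2
    omega
  apply hq2
  rw [hbad]
  refine Set.mem_biUnion (x := T) ?_ hqT
  rw [Finset.mem_coe, Finset.mem_filter, Finset.mem_powerset]
  refine ⟨?_, hTcard⟩
  rw [hT, hS]
  exact Finset.image_subset_image (Finset.filter_subset _ _)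

end Pool.Agent.R228.ND
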