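import Pool.Agent.R228.ND.B

/-!
# The quasiconformal map
-/

namespace Pool.Agent.R228.ND

open Real

variable {m : ℕ}

/-- `ℝ^(m+1)` -/
abbrev Eu (m : ℕ) := EuclideanSpace ℝ (Fin (m + 1))

noncomputable def H (s : ℝ) : ℝ := Real.exp (-Real.log s + Real.sin (2 * π * Real.log s) / (2 * π))

/-- the map `(s, w) ↦ (log s, H(s) w)` -/
noncomputable def f (x : Eu m) : Eu m :=
  WithLp.toLp 2 (Fin.cons (Real.log (x 0)) (fun j : Fin m => x j.succ * H (x 0)))

/-- its inverse `(t, y) ↦ (e^t, e^(t - sin(2 π t)/(2 π)) y)` -/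
noncomputable def g (y : Eu m) : Eu m :=
  WithLp.toLp 2 (Fin.cons (Real.exp (y 0))
    (fun j : Fin m => y j.succ * Real.exp (y 0 - Real.sin (2 * π * y 0) / (2 * π))))

def Om' (m : ℕ) : Set (Eu m) := {y | ∀ j : Fin m, |y j.succ| * (1 - Real.cos (2 * π * y 0)) < 1}

def Om (m : ℕ) : Set (Eu m) := {x | 0 < x 0 ∧
  ∀ j : Fin m, |x j.succ * H (x 0)| * (1 - Real.cos (2 * π * Real.log (x 0))) < 1}

@[simp] theorem f_zero (x : Eu m) : f x 0 = Real.log (x 0) := rfl
@[simp] theorem f_succ (x : Eu m) (j : Fin m) : f x j.succ = x j.succ * H (x 0) := rfl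
@[simp] theorem g_zero (x : Eu m) : g x 0 = Real.exp (x 0) := rfl
@[simp] theorem g_succ (x : Eu m) (j : Fin m) :
    g x j.succ = x j.succ * Real.exp (x 0 - Real.sin (2 * π * x 0) / (2 * π)) := rfl

theorem f_g (y : Eu m) : f (g y) = y := by
  ext i
  refine Fin.cases ?_ (fun j => ?_) i
  · simp
  · rw [f_succ, g_succ, g_zero]
    unfold H
    rw [Real.log_exp, mul_assoc, ← Real.exp_add]
    have : y 0 - Real.sin (2 * π * y 0) / (2 * π) + (-y 0 + Real.sin (2 * π * y 0) / (2 * π)) = 0 := by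
      ring
    rw [this, Real.exp_zero, mul_one]

theorem g_f {x : Eu m} (hx : 0 < x 0) : g (f x) = x := by
  ext i
  refine Fin.cases ?_ (fun j => ?_) i
  · rw [g_zero, f_zero, Real.exp_log hx]
  · rw [g_succ, f_succ, f_zero]
    unfold H
    rw [mul_assoc, ← Real.exp_add]
    have : -Real.log (x 0) + Real.sin (2 * π * Real.log (x 0)) / (2 * π) +
        (Real.log (x 0) - Real.sin (2 * π * Real.log (x 0)) / (2 * π)) = 0 := by ring
    rw [this, Real.exp_zero, mul_one]

theorem mapsTo_f : Set.MapsTo f (Om m) (Om' m) := fun x hx => hx.2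

theorem mapsTo_g : Set.MapsTo g (Om' m) (Om m) := by
  intro y hy
  refine ⟨Real.exp_pos _, fun j => ?_⟩
  have h1 : g y j.succ * H (g y 0) = y j.succ := by
    rw [← f_succ, f_g]
  rw [h1, g_zero, Real.log_exp]
  exact hy j

theorem bijOn : Set.BijOn f (Om m) (Om' m) := by
  refine ⟨mapsTo_f, ?_, ?_⟩
  · intro x hx y hy h
    rw [← g_f hx.1, ← g_f hy.1, h]
  · intro y hy
    exact ⟨g y, mapsTo_g hy, f_g y⟩

theorem isOpen_Om' : IsOpen (Om' m) := by
  have : Om' m = ⋂ j : Fin m, {y | |y j.succ| * (1 - Real.cos (2 * π * y 0)) < 1} := by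
    ext y
    simp [Om']
  rw [this]
  apply isOpen_iInter_of_finite
  intro j
  apply isOpen_lt _ continuous_const
  fun_prop

theorem contDiff_g : ContDiff ℝ ⊤ (g : Eu m → Eu m) := by
  rw [contDiff_euclidean]
  intro i
  refine Fin.cases ?_ (fun j => ?_) i
  · simp only [g_zero]
    fun_prop
  · simp only [g_succ]
    fun_prop

theorem contDiffOn_f : ContDiffOn ℝ ⊤ (f : Eu m → Eu m) {x | 0 < x 0} := by
  have hlog : ContDiffOn ℝ ⊤ (fun x : Eu m => Real.log (x 0)) {x | 0 < x 0} := by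
    apply ContDiffOn.log
    · fun_prop
    · intro x hx
      exact (ne_of_gt hx)
  rw [contDiffOn_euclidean]
  intro i
  refine Fin.cases ?_ (fun j => ?_) i
  · exact hlog
  · simp only [f_succ, H]
    apply ContDiffOn.mul
    · fun_prop
    · apply ContDiffOn.exp
      apply ContDiffOn.add hlog.neg
      apply ContDiffOn.div_const
      exact Real.contDiff_sin.comp_contDiffOn (contDiffOn_const.mul hlog)

theorem isOpen_half : IsOpen {x : Eu m | 0 < x 0} :=
  isOpen_lt continuous_const (by fun_prop)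

theorem isOpen_Om : IsOpen (Om m) := by
  have : Om m = {x | 0 < x 0} ∩ f ⁻¹' (Om' m) := by
    ext x
    rfl
  rw [this]
  exact contDiffOn_f.continuousOn.isOpen_inter_preimage isOpen_half isOpen_Om'

theorem isConnected_Om' : IsConnected (Om' m) := by
  have h0 : (0 : Eu m) ∈ Om' m := by
    intro j
    simp
  refine ⟨⟨0, h0⟩, ?_⟩
  apply isPreconnected_of_forall (0 : Eu m)
  intro y hy
  -- the point of the axis below `y`
  let c : ℝ → Eu m := fun t => WithLp.toLp 2 (Fin.cons t (fun _ => 0))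
  have hc : Continuous c := by
    apply (PiLp.continuous_toLp 2 _).comp
    apply continuous_pi
    intro i
    refine Fin.cases ?_ (fun j => ?_) i
    · exact continuous_id
    · exact continuous_const
  have hc0 : ∀ t, (c t) 0 = t := fun t => rfl
  have hcs : ∀ t (j : Fin m), (c t) j.succ = 0 := fun t j => rfl
  have hz : c 0 = 0 := by
    ext i
    refine Fin.cases ?_ (fun j => ?_) i <;> rfl
  refine ⟨segment ℝ y (c (y 0)) ∪ Set.range c, ?_, ?_, ?_, ?_⟩
  · rintro z (hz | ⟨t, rfl⟩)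
    · obtain ⟨a, b, ha, hb, hab, rfl⟩ := hz
      intro j
      have e0 : (a • y + b • c (y 0)) 0 = y 0 := by
        have : (a • y + b • c (y 0)) 0 = a * y 0 + b * (c (y 0)) 0 := rfl
        rw [this, hc0, ← add_mul, hab, one_mul]
      have e1 : (a • y + b • c (y 0)) j.succ = a * y j.succ := by
        have : (a • y + b • c (y 0)) j.succ = a * y j.succ + b * (c (y 0)) j.succ := rfl
        rw [this, hcs, mul_zero, add_zero]
      rw [e0, e1, abs_mul, abs_of_nonneg ha]
      have h1 := hy j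
      have h2 : 0 ≤ |y j.succ| * (1 - Real.cos (2 * π * y 0)) :=
        mul_nonneg (abs_nonneg _) (by linarith [Real.cos_le_one (2 * π * y 0)])
      have h3 : a ≤ 1 := by linarith
      calc a * |y j.succ| * (1 - Real.cos (2 * π * y 0))
          = a * (|y j.succ| * (1 - Real.cos (2 * π * y 0))) := by ring
        _ ≤ 1 * (|y j.succ| * (1 - Real.cos (2 * π * y 0))) := mul_le_mul_of_nonneg_right h3 h2
        _ < 1 := by linarith
    · intro j
      rw [hcs]
      simp
  · exact Or.inr ⟨0, hz⟩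
  · exact Or.inl (left_mem_segment ℝ _ _)
  · refine IsPreconnected.union (c (y 0)) (right_mem_segment ℝ _ _) ?_
      (convex_segment _ _).isPreconnected (isPreconnected_range hc)
    exact Set.mem_range_self _

theorem image_g : g '' Om' m = Om m := by
  apply Set.Subset.antisymm
  · rintro _ ⟨y, hy, rfl⟩
    exact mapsTo_g hy
  · intro x hx
    exact ⟨f x, mapsTo_f hx, g_f hx.1⟩

theorem isConnected_Om : IsConnected (Om m) := by
  rw [← image_g]
  exact isConnected_Om'.image _ contDiff_g.continuous.continuousOn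

/-! ### the derivative -/

/-- derivative of `H` -/
noncomputable def H' (s : ℝ) : ℝ := H s * (-(1 / s) * (1 - Real.cos (2 * π * Real.log s)))

theorem hasDerivAt_H {s : ℝ} (hs : 0 < s) : HasDerivAt H (H' s) s := by
  have h1 := Real.hasDerivAt_log hs.ne'
  have h2 : HasDerivAt (fun s => Real.sin (2 * π * Real.log s) / (2 * π))
      (Real.cos (2 * π * Real.log s) * (2 * π * s⁻¹) / (2 * π)) s :=
    ((h1.const_mul (2 * π)).sin).div_const (2 * π)
  have h3 := (h1.neg.add h2).exp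
  refine h3.congr_deriv ?_
  unfold H' H
  congr 1
  have : (2 * π) ≠ 0 := by positivity
  field_simp
  ring

theorem H_pos (s : ℝ) : 0 < H s := Real.exp_pos _

theorem two_pi_ge : (1 : ℝ) ≤ 2 * π := by
  have := Real.two_le_pi
  linarith

theorem sin_div (t : ℝ) : |Real.sin t / (2 * π)| ≤ 1 := by
  have h1 := two_pi_ge
  rw [abs_div, abs_of_pos (by linarith : (0 : ℝ) < 2 * π)]
  rw [div_le_one (by linarith)]
  exact (Real.abs_sin_le_one t).trans h1

theorem H_le {s : ℝ} (hs : 0 < s) : H s ≤ 3 / s := by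
  unfold H
  rw [Real.exp_add, Real.exp_neg, Real.exp_log hs]
  have h1 := (abs_le.1 (sin_div (2 * π * Real.log s))).2
  have h2 : Real.exp (Real.sin (2 * π * Real.log s) / (2 * π)) ≤ 3 :=
    (Real.exp_le_exp.2 h1).trans (by have := Real.exp_one_lt_d9; linarith)
  have h3 : 0 < s⁻¹ := by positivity
  calc _ ≤ s⁻¹ * 3 := mul_le_mul_of_nonneg_left h2 h3.le
    _ = 3 / s := by ring

theorem H_ge {s : ℝ} (hs : 0 < s) : 1 / (3 * s) ≤ H s := by
  unfold H
  rw [Real.exp_add, Real.exp_neg, Real.exp_log hs]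
  have h1 := (abs_le.1 (sin_div (2 * π * Real.log s))).1
  have h2 : 1 / 3 ≤ Real.exp (Real.sin (2 * π * Real.log s) / (2 * π)) := by
    refine le_trans ?_ (Real.exp_le_exp.2 h1)
    rw [Real.exp_neg, one_div]
    apply inv_anti₀ (Real.exp_pos _)
    have := Real.exp_one_lt_d9
    linarith
  have h3 : 0 < s⁻¹ := by positivity
  calc 1 / (3 * s) = s⁻¹ * (1 / 3) := by field_simp
    _ ≤ _ := mul_le_mul_of_nonneg_left h2 h3.le

/-- the matrix of the derivative -/
noncomputable def A (x : Eu m) : Matrix (Fin (m + 1)) (Fin (m + 1)) ℝ := fun i k =>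
  Fin.cases (if k = 0 then 1 / x 0 else 0)
    (fun j => (if k = 0 then x j.succ * H' (x 0) else 0) + (if k = j.succ then H (x 0) else 0)) i

/-- the derivative -/
noncomputable def L (x : Eu m) : Eu m →L[ℝ] Eu m :=
  LinearMap.toContinuousLinearMap (Matrix.toEuclideanLin (A x))

theorem L_zero (x v : Eu m) : L x v 0 = v 0 / x 0 := by
  have : L x v 0 = ∑ k, A x 0 k * v k := by
    simp [L, Matrix.toEuclideanLin, Matrix.mulVec, dotProduct]
  rw [this, Finset.sum_eq_single 0]
  · simp [A]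
    ring
  · intro k _ hk
    simp [A, hk]
  · simp

theorem L_succ (x v : Eu m) (j : Fin m) :
    L x v j.succ = x j.succ * H' (x 0) * v 0 + H (x 0) * v j.succ := by
  have : L x v j.succ = ∑ k, A x j.succ k * v k := by
    simp [L, Matrix.toEuclideanLin, Matrix.mulVec, dotProduct]
  rw [this]
  simp only [A, Fin.cases_succ, add_mul, Finset.sum_add_distrib, ite_mul, zero_mul]
  simp

theorem hasFDerivAt_f {x : Eu m} (hx : 0 < x 0) : HasFDerivAt f (L x) x := by
  rw [← hasFDerivWithinAt_univ, hasFDerivWithinAt_euclidean]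
  simp only [hasFDerivWithinAt_univ]
  have hp : ∀ i : Fin (m + 1), HasFDerivAt (fun x : Eu m => x i)
      (PiLp.proj 2 (fun _ : Fin (m + 1) => ℝ) i : Eu m →L[ℝ] ℝ) x := by
    intro i
    exact (PiLp.proj 2 (fun _ : Fin (m + 1) => ℝ) i : Eu m →L[ℝ] ℝ).hasFDerivAt
  intro i
  refine Fin.cases ?_ (fun j => ?_) i
  · have h1 := (Real.hasDerivAt_log hx.ne').comp_hasFDerivAt x (hp 0)
    refine h1.congr_fderiv ?_
    ext v
    simp only [ContinuousLinearMap.comp_apply, ContinuousLinearMap.smul_apply]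
    have : (PiLp.proj 2 (fun _ : Fin (m + 1) => ℝ) 0 : Eu m →L[ℝ] ℝ) (L x v) = L x v 0 := rfl
    rw [this, L_zero]
    have : (PiLp.proj 2 (fun _ : Fin (m + 1) => ℝ) 0 : Eu m →L[ℝ] ℝ) v = v 0 := rfl
    rw [this, smul_eq_mul]
    ring
  · have h1 := (hp j.succ).mul ((hasDerivAt_H hx).comp_hasFDerivAt x (hp 0))
    refine h1.congr_fderiv ?_
    ext v
    simp only [ContinuousLinearMap.comp_apply, ContinuousLinearMap.smul_apply,
      ContinuousLinearMap.add_apply, Function.comp]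
    have : (PiLp.proj 2 (fun _ : Fin (m + 1) => ℝ) j.succ : Eu m →L[ℝ] ℝ) (L x v)
        = L x v j.succ := rfl
    rw [this, L_succ]
    have : (PiLp.proj 2 (fun _ : Fin (m + 1) => ℝ) 0 : Eu m →L[ℝ] ℝ) v = v 0 := rfl
    rw [this]
    have : (PiLp.proj 2 (fun _ : Fin (m + 1) => ℝ) j.succ : Eu m →L[ℝ] ℝ) v = v j.succ := rfl
    rw [this, smul_eq_mul, smul_eq_mul, smul_eq_mul]
    ring

theorem det_L (x : Eu m) : (L x).det = 1 / x 0 * H (x 0) ^ m := by
  have h1 : (L x).det = (A x).det := by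
    have h2 : (L x).det = LinearMap.det (Matrix.toEuclideanLin (A x)) := rfl
    rw [h2, Matrix.toEuclideanLin_eq_toLin_orthonormal, LinearMap.det_toLin]
  rw [h1, Matrix.det_succ_row_zero, Finset.sum_eq_single 0]
  · have h3 : (A x).submatrix Fin.succ (Fin.succAbove 0) = H (x 0) • (1 : Matrix (Fin m) (Fin m) ℝ) := by
      ext i j
      by_cases hij : i = j
      · subst hij
        simp [A]
      · have : j ≠ i := Ne.symm hij
        simp [A, hij, this]
    rw [h3, Matrix.det_smul, Matrix.det_one]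
    simp [A]
  · intro k _ hk
    have : A x 0 k = 0 := by simp [A, hk]
    rw [this]
    ring
  · simp

theorem norm_L {x : Eu m} (hx : x ∈ Om m) : ‖L x‖ ≤ (m + 1 : ℕ) * (4 / x 0) := by
  have hx0 := hx.1
  apply ContinuousLinearMap.opNorm_le_bound _ (by positivity)
  intro v
  have hv : ∀ i, |v i| ≤ ‖v‖ := fun i => by
    have := PiLp.norm_apply_le v i
    rwa [Real.norm_eq_abs] at this
  rw [mul_assoc]
  apply norm_le_of_coord (by positivity)
  intro i
  refine Fin.cases ?_ (fun j => ?_) i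
  · rw [L_zero, abs_div, abs_of_pos hx0, div_mul_eq_mul_div]
    apply div_le_div_of_nonneg_right _ hx0.le
    have := hv 0
    have := norm_nonneg v
    linarith
  · rw [L_succ]
    have h1 : |x j.succ * H' (x 0) * v 0| ≤ 1 / x 0 * ‖v‖ := by
      have h2 := hx.2 j
      have h3 : |x j.succ * H' (x 0)| ≤ 1 / x 0 := by
        unfold H'
        have h4 : 0 ≤ 1 - Real.cos (2 * π * Real.log (x 0)) := by
          linarith [Real.cos_le_one (2 * π * Real.log (x 0))]
        have h5 : x j.succ * (H (x 0) * (-(1 / x 0) * (1 - Real.cos (2 * π * Real.log (x 0)))))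
            = -((x j.succ * H (x 0)) * (1 - Real.cos (2 * π * Real.log (x 0))) * (1 / x 0)) := by
          ring
        rw [h5, abs_neg, abs_mul, abs_mul, abs_of_nonneg h4,
          abs_of_pos (by positivity : 0 < 1 / x 0)]
        calc _ ≤ 1 * (1 / x 0) := mul_le_mul_of_nonneg_right h2.le (by positivity)
          _ = _ := one_mul _
      rw [abs_mul]
      exact mul_le_mul h3 (hv 0) (abs_nonneg _) (by positivity)
    have h2 : |H (x 0) * v j.succ| ≤ 3 / x 0 * ‖v‖ := by
      rw [abs_mul, abs_of_pos (H_pos _)]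
      exact mul_le_mul (H_le hx0) (hv _) (abs_nonneg _) (by positivity)
    calc _ ≤ |x j.succ * H' (x 0) * v 0| + |H (x 0) * v j.succ| := abs_add_le _ _
      _ ≤ 1 / x 0 * ‖v‖ + 3 / x 0 * ‖v‖ := add_le_add h1 h2
      _ = 4 / x 0 * ‖v‖ := by ring

theorem quasiconformal {x : Eu m} (hx : x ∈ Om m) :
    ‖fderiv ℝ f x‖ ^ (m + 1) ≤ (4 * (m + 1 : ℕ) : ℝ) ^ (m + 1) * 3 ^ m * (fderiv ℝ f x).det := by
  have hx0 := hx.1
  rw [(hasFDerivAt_f hx0).fderiv, det_L]
  have h1 : ‖L x‖ ^ (m + 1) ≤ ((m + 1 : ℕ) * (4 / x 0)) ^ (m + 1) :=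
    pow_le_pow_left₀ (norm_nonneg _) (norm_L hx) _
  have h2 : (1 / (3 * x 0)) ^ m ≤ H (x 0) ^ m :=
    pow_le_pow_left₀ (by positivity) (H_ge hx0) _
  have h3 : ((m + 1 : ℕ) * (4 / x 0)) ^ (m + 1)
      = (4 * (m + 1 : ℕ) : ℝ) ^ (m + 1) * 3 ^ m * (1 / x 0 * (1 / (3 * x 0)) ^ m) := by
    have e1 : ((m + 1 : ℕ) * (4 / x 0) : ℝ) = (4 * (m + 1 : ℕ)) * (1 / x 0) := by ring
    have e2 : (1 / (3 * x 0) : ℝ) = (1 / 3) * (1 / x 0) := by field_simp
    have e3 : (3 : ℝ) ^ m * (1 / 3) ^ m = 1 := by rw [← mul_pow]; norm_num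
    rw [e1, e2, mul_pow, mul_pow, pow_succ (1 / x 0)]
    calc _ = (4 * (m + 1 : ℕ) : ℝ) ^ (m + 1) * 1 * ((1 / x 0) ^ m * (1 / x 0)) := by ring
      _ = (4 * (m + 1 : ℕ) : ℝ) ^ (m + 1) * ((3 : ℝ) ^ m * (1 / 3) ^ m) *
          ((1 / x 0) ^ m * (1 / x 0)) := by rw [e3]
      _ = _ := by ring
  refine h1.trans ?_
  rw [h3]
  apply mul_le_mul_of_nonneg_left _ (by positivity)
  exact mul_le_mul_of_nonneg_left h2 (by positivity)

end Pool.Agent.R228.ND
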