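import Pool.Agent.R228.ND.C

/-!
# The Nagata dimension of the preimage of the lattice
-/

namespace Pool.Agent.R228.ND

open Real

/-- the preimage of the lattice -/
def EE (m : ℕ) : Set (Eu m) := g '' Set.range zp

theorem sin_zero (k : ℤ) : Real.sin (2 * π * k) = 0 := by
  have h : (2 * π * k : ℝ) = ((2 * k : ℤ) : ℝ) * π := by push_cast; ring
  rw [h]
  exact Real.sin_int_mul_pi _

theorem cos_one (k : ℤ) : Real.cos (2 * π * k) = 1 := by
  have h : (2 * π * k : ℝ) = (k : ℝ) * (2 * π) := by ring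
  rw [h]
  exact Real.cos_int_mul_two_pi k

theorem EE_coord {m : ℕ} (z : Fin (m + 1) → ℤ) :
    g (zp z) 0 = Real.exp (z 0) ∧ ∀ j : Fin m, g (zp z) j.succ = z j.succ * Real.exp (z 0) := by
  refine ⟨rfl, fun j => ?_⟩
  rw [g_succ]
  have h0 : (zp z) 0 = (z 0 : ℝ) := rfl
  have h1 : (zp z) j.succ = (z j.succ : ℝ) := rfl
  rw [h0, h1, sin_zero, zero_div, sub_zero]

theorem two_le_exp_one : (2 : ℝ) ≤ Real.exp 1 := by
  have := Real.add_one_le_exp 1
  linarith

theorem EE_half {m : ℕ} {x y : Eu m} (hx : x ∈ EE m) (hy : y ∈ EE m) (h : x 0 < y 0) :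
    2 * x 0 ≤ y 0 := by
  obtain ⟨_, ⟨z, rfl⟩, rfl⟩ := hx
  obtain ⟨_, ⟨w, rfl⟩, rfl⟩ := hy
  rw [(EE_coord z).1, (EE_coord w).1] at h ⊢
  rw [Real.exp_lt_exp] at h
  have h1 : z 0 + 1 ≤ w 0 := by
    have : z 0 < w 0 := by exact_mod_cast h
    omega
  have h2 : (z 0 : ℝ) + 1 ≤ w 0 := by exact_mod_cast h1
  calc 2 * Real.exp (z 0) ≤ Real.exp 1 * Real.exp (z 0) :=
        mul_le_mul_of_nonneg_right two_le_exp_one (Real.exp_pos _).le
    _ = Real.exp (z 0 + 1) := by rw [Real.exp_add]; ring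
    _ ≤ Real.exp (w 0) := Real.exp_le_exp.2 h2

theorem EE_same {m : ℕ} {x y : Eu m} (hx : x ∈ EE m) (hy : y ∈ EE m) (h : x 0 = y 0)
    (hne : x ≠ y) : x 0 ≤ dist x y := by
  obtain ⟨_, ⟨z, rfl⟩, rfl⟩ := hx
  obtain ⟨_, ⟨w, rfl⟩, rfl⟩ := hy
  rw [(EE_coord z).1, (EE_coord w).1] at h
  have h0 : z 0 = w 0 := by
    have := Real.exp_injective h
    exact_mod_cast this
  obtain ⟨j, hj⟩ : ∃ j : Fin m, z j.succ ≠ w j.succ := by
    by_contra hc
    push Not at hc
    apply hne
    have : z = w := by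
      funext i
      refine Fin.cases h0 hc i
    rw [this]
  have h1 := coord_le (g (zp z)) (g (zp w)) j.succ
  rw [(EE_coord z).2, (EE_coord w).2, ← h0, ← sub_mul, abs_mul,
    abs_of_pos (Real.exp_pos _)] at h1
  have h2 : (1 : ℝ) ≤ |(z j.succ : ℝ) - w j.succ| := by
    have h3 : (1 : ℤ) ≤ |z j.succ - w j.succ| := Int.one_le_abs (sub_ne_zero.2 hj)
    exact_mod_cast h3
  rw [(EE_coord z).1]
  have h4 := Real.exp_pos (z 0)
  nlinarith

theorem EE_pos {m : ℕ} {x : Eu m} (hx : x ∈ EE m) : 0 < x 0 := by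
  obtain ⟨y, _, rfl⟩ := hx
  exact Real.exp_pos _

theorem nagata_EE (m : ℕ) : NagataLE (EE m) m := by
  classical
  apply nagata_of_colors (c := ((m + 1 : ℕ) : ℝ) * (2 * (m + 1))) (by positivity)
    ((Fin m → ℤ) ⊕ Eu m)
  intro s hs
  refine ⟨fun i => {x | (x 0 ≤ 2 * s ∧ ∀ j : Fin m, good s m i (x j.succ)) ∨ 
      (2 * s < x 0 ∧ i = 0)},
    fun i x => if x 0 ≤ 2 * s then Sum.inl (fun j : Fin m => lab s m i (x j.succ))
      else Sum.inr x, ?_, ?_, ?_⟩
  · intro x _
    rcases le_or_gt (x 0) (2 * s) with h | h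
    · obtain ⟨i, hi⟩ := exists_good s (fun j : Fin m => x j.succ)
      exact ⟨i, Or.inl ⟨h, hi⟩⟩
    · exact ⟨0, Or.inr ⟨h, rfl⟩⟩
  · intro i x hx y hy _ _ hl
    rcases le_or_gt (x 0) (2 * s) with h | h
    · rcases le_or_gt (y 0) (2 * s) with h' | h'
      · simp only [if_pos h, if_pos h', Sum.inl.injEq] at hl
        have := dist_le_of_coord (x := x) (y := y) (b := 2 * s * (m + 1)) (by positivity)
          (by
            intro k
            refine Fin.cases ?_ (fun j => ?_) k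
            · have h1 := EE_pos hx
              have h2 := EE_pos hy
              have h3 : (0 : ℝ) ≤ m := Nat.cast_nonneg m
              have h4 : 2 * s ≤ 2 * s * (m + 1) := by nlinarith
              rw [abs_le]
              constructor <;> linarith
            · exact lab_same hs (congrFun hl j))
        refine this.trans (le_of_eq ?_)
        ring
      · simp only [if_pos h, if_neg (not_le.2 h')] at hl
        exact absurd hl (by simp)
    · rcases le_or_gt (y 0) (2 * s) with h' | h'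
      · simp only [if_neg (not_le.2 h), if_pos h'] at hl
        exact absurd hl (by simp)
      · simp only [if_neg (not_le.2 h), if_neg (not_le.2 h'), Sum.inr.injEq] at hl
        rw [hl, dist_self]
        positivity
  · intro i x hx y hy hGx hGy hl
    have hx0 := EE_pos hx
    have hy0 := EE_pos hy
    have far : ∀ x y : Eu m, x ∈ EE m → y ∈ EE m → x 0 < y 0 → 2 * s < y 0 → s < dist x y := by
      intro x y hx hy h1 h2
      have h3 := EE_half hx hy h1
      have h4 := coord_le x y 0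
      rw [abs_sub_comm] at h4
      have h5 := le_abs_self (y 0 - x 0)
      linarith
    rcases le_or_gt (x 0) (2 * s) with h | h
    · rcases le_or_gt (y 0) (2 * s) with h' | h'
      · simp only [if_pos h, if_pos h'] at hl
        have hl' : (fun j : Fin m => lab s m i (x j.succ)) ≠ fun j => lab s m i (y j.succ) :=
          fun hc => hl (by rw [hc])
        obtain ⟨j, hj⟩ := Function.ne_iff.1 hl'
        have hgx : good s m i (x j.succ) := by
          rcases hGx with h1 | h1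
          · exact h1.2 j
          · exact absurd h1.1 (not_lt.2 h)
        have hgy : good s m i (y j.succ) := by
          rcases hGy with h1 | h1
          · exact h1.2 j
          · exact absurd h1.1 (not_lt.2 h')
        exact (lab_diff hs hgx hgy hj).trans_le (coord_le x y j.succ)
      · exact far x y hx hy (h.trans_lt h') h'
    · rcases le_or_gt (y 0) (2 * s) with h' | h'
      · rw [dist_comm]
        exact far y x hy hx (h'.trans_lt h) h
      · simp only [if_neg (not_le.2 h), if_neg (not_le.2 h')] at hl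
        have hne : x ≠ y := fun hc => hl (by rw [hc])
        rcases lt_trichotomy (x 0) (y 0) with h1 | h1 | h1
        · exact far x y hx hy h1 h'
        · have := EE_same hx hy h1 hne
          linarith
        · rw [dist_comm]
          exact far y x hy hx h1 h

theorem EE_sub (m : ℕ) : EE m ⊆ Om m := by
  rintro _ ⟨_, ⟨z, rfl⟩, rfl⟩
  apply mapsTo_g
  intro j
  have h0 : (zp z) 0 = (z 0 : ℝ) := rfl
  rw [h0, cos_one]
  simp

theorem f_EE (m : ℕ) : f '' EE m = Set.range (zp : (Fin (m + 1) → ℤ) → Eu m) := by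
  unfold EE
  rw [← Set.image_comp]
  have : f ∘ g = (id : Eu m → Eu m) := by
    funext y
    exact f_g y
  rw [this, Set.image_id]

/-- `f` is a smooth quasiconformal map of the domain `Ω` onto the domain `Ω'` of `ℝ^n`: a
real-analytic diffeomorphism with `|Df|^n ≤ K J_f` everywhere in `Ω`. -/
def QCDiffeo {n : ℕ} (f : EuclideanSpace ℝ (Fin n) → EuclideanSpace ℝ (Fin n))
    (Ω Ω' : Set (EuclideanSpace ℝ (Fin n))) : Prop :=
  IsOpen Ω ∧ IsConnected Ω ∧ IsOpen Ω' ∧ IsConnected Ω' ∧ Set.BijOn f Ω Ω' ∧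
  ContDiffOn ℝ ⊤ f Ω ∧
  (∃ g : EuclideanSpace ℝ (Fin n) → EuclideanSpace ℝ (Fin n),
    Set.InvOn g f Ω Ω' ∧ ContDiffOn ℝ ⊤ g Ω') ∧
  ∃ K : ℝ, 1 ≤ K ∧ ∀ x ∈ Ω, ‖fderiv ℝ f x‖ ^ n ≤ K * (fderiv ℝ f x).det

theorem main (m : ℕ) : ∃ (Ω Ω' : Set (Eu m)) (f : Eu m → Eu m) (E : Set (Eu m)),
    QCDiffeo f Ω Ω' ∧ E ⊆ Ω ∧ nagataDim E ≤ (m : ℕ) ∧ nagataDim (f '' E) = (m + 1 : ℕ) := by
  refine ⟨Om m, Om' m, f, EE m, ⟨isOpen_Om, isConnected_Om, isOpen_Om', isConnected_Om', bijOn,
    contDiffOn_f.mono (fun x hx => hx.1), ⟨g, ⟨fun x hx => g_f hx.1, fun y _ => f_g y⟩,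
      contDiff_g.contDiffOn⟩, _, ?_, fun x hx => quasiconformal hx⟩, EE_sub m,
    nagataDim_le (nagata_EE m), ?_⟩
  · have h1 : (1 : ℝ) ≤ 4 * (m + 1 : ℕ) := by
      push_cast
      have : (0 : ℝ) ≤ m := Nat.cast_nonneg m
      linarith
    have h2 : (1 : ℝ) ≤ (4 * (m + 1 : ℕ)) ^ (m + 1) := one_le_pow₀ h1
    have h3 : (1 : ℝ) ≤ 3 ^ m := one_le_pow₀ (by norm_num)
    nlinarith
  · apply le_antisymm
    · exact nagataDim_le (nagata_univ _)
    · apply le_nagataDim
      apply not_nagata (Nat.lt_succ_self m)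
      intro z
      rw [f_EE]
      exact Set.mem_range_self z

end Pool.Agent.R228.ND
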